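import Pool.Agent.TH206.Fro.Defs

/-!
NM-D: stable sets and a last variable
-/

set_option autoImplicit false

namespace Pool.Agent.TH230.NM

open Finset Pool.Agent.TH206.Fro
open scoped Pointwise

private lemma cancel {n : ℕ} {x : Fin n →₀ ℕ} {i : Fin n} (hi : 0 < x i) :
    x - Finsupp.single i 1 + Finsupp.single i 1 = x :=
  tsub_add_cancel_of_le (Finsupp.single_le_iff.2 hi)

private lemma sum_single {n : ℕ} (y : Fin n →₀ ℕ) (i : Fin n) :
    ∑ j, (y + Finsupp.single i 1 : Fin n →₀ ℕ) j = (∑ j, y j) + 1 := by
  simp only [Finsupp.add_apply, Finset.sum_add_distrib]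
  congr 1
  simp [Finsupp.single_apply]

private lemma mvm {n e : ℕ} {x : Fin n →₀ ℕ} (hx : x ∈ Mon n e) {i : Fin n} (m : Fin n)
    (hi : 0 < x i) : mv m i x ∈ Mon n e := by
  rw [mem_Mon] at hx ⊢
  unfold mv
  rw [sum_single, ← sum_single (x - Finsupp.single i 1) i, cancel hi]
  exact hx

lemma stab_up {n : ℕ} (e : ℕ) (m : Fin n) (hm : ∀ i, i ≤ m) (B : Finset (Fin n →₀ ℕ))
    (hs : Stable B) (w x : Fin n →₀ ℕ) (hx : x ∈ Mon n e) (h : w + Finsupp.single m e ∈ B) :
    w + x ∈ B := by
  have key : ∀ t : ℕ, ∀ x : Fin n →₀ ℕ, x ∈ Mon n e → e - x m = t → w + x ∈ B := by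
    intro t
    induction t with
    | zero =>
      intro x hx ht
      have hsum := mem_Mon.1 hx
      have h1 := Finset.add_sum_erase univ (fun i => x i) (Finset.mem_univ m)
      have h2 : ∑ i ∈ univ.erase m, x i = 0 := by omega
      have h3 : x m = e := by omega
      have h4 : x = Finsupp.single m e := by
        ext i
        by_cases hi : i = m
        · subst hi
          rw [h3, Finsupp.single_eq_same]
        · rw [Finset.sum_eq_zero_iff.1 h2 i (Finset.mem_erase.2 ⟨hi, Finset.mem_univ i⟩),
            Finsupp.single_eq_of_ne hi]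
      rw [h4]
      exact h
    | succ t ih =>
      intro x hx ht
      have hsum := mem_Mon.1 hx
      have h1 := Finset.add_sum_erase univ (fun i => x i) (Finset.mem_univ m)
      have h2 : ∑ i ∈ univ.erase m, x i ≠ 0 := by omega
      obtain ⟨i, hi, hi0⟩ := Finset.exists_ne_zero_of_sum_ne_zero h2
      have him : i ≠ m := (Finset.mem_erase.1 hi).1
      have hi0' : 0 < x i := Nat.pos_of_ne_zero hi0
      have h3 := ih (mv m i x) (mvm hx m hi0') (by
        have : (mv m i x) m = x m + 1 := by
          unfold mv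
          rw [Finsupp.add_apply, Finsupp.tsub_apply, Finsupp.single_eq_same,
            Finsupp.single_eq_of_ne (Ne.symm him), Nat.sub_zero]
        omega)
      have h4 := hs _ h3 i m (lt_of_le_of_ne (hm i) him) (by
        unfold mv
        rw [Finsupp.add_apply, Finsupp.add_apply, Finsupp.single_eq_same]
        omega)
      have h5 : mv i m (w + mv m i x) = w + x := by
        unfold mv
        rw [← add_assoc, add_tsub_cancel_right, add_assoc, cancel hi0']
      rwa [h5] at h4
  exact key _ x hx rfl

/-- the set of the w' with w' x_m^e outside B is not larger than the complement of B -/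
lemma Bc_card {n : ℕ} (f e : ℕ) (m : Fin n) (B : Finset (Fin n →₀ ℕ)) :
    ((Mon n f).filter (fun w => w + Finsupp.single m e ∉ B)).card ≤ (Mon n (f + e) \ B).card := by
  refine Finset.card_le_card_of_injOn (fun w => w + Finsupp.single m e) ?_ ?_
  · intro w hw
    have hw' := Finset.mem_filter.1 (Finset.mem_coe.1 hw)
    refine Finset.mem_coe.2 (Finset.mem_sdiff.2 ⟨?_, hw'.2⟩)
    rw [mem_Mon]
    simp only [Finsupp.add_apply, Finset.sum_add_distrib]
    rw [mem_Mon.1 hw'.1]
    simp [Finsupp.single_apply]
  · intro a _ b _ hab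
    exact add_right_cancel hab

end Pool.Agent.TH230.NM
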